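import Mathlib

/-! # Regular Lindelöf P-spaces: basic facts -/

set_option autoImplicit false

open Set Topology Filter Cardinal

universe u

namespace Pool.Agent.H638.LP

/-- every `G_δ` set is open -/
def IsPSp (X : Type u) [TopologicalSpace X] : Prop :=
  ∀ S : Set (Set X), S.Countable → (∀ s ∈ S, IsOpen s) → IsOpen (⋂₀ S)

/-- `x` is the intersection of at most `κ` open sets -/
def Psi {X : Type u} [TopologicalSpace X] (x : X) (κ : Cardinal.{u}) : Prop :=
  ∃ F : Set (Set X), #F ≤ κ ∧ (∀ U ∈ F, IsOpen U) ∧ ⋂₀ F = {x}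

variable {X : Type u} [TopologicalSpace X]

theorem open_iInter (hP : IsPSp X) {ι : Type u} {C : Set ι} (hC : C.Countable) {U : ι → Set X}
    (hU : ∀ i ∈ C, IsOpen (U i)) : IsOpen (⋂ i ∈ C, U i) := by
  have h := hP (U '' C) (hC.image U) (by
    rintro _ ⟨i, hi, rfl⟩
    exact hU i hi)
  rwa [sInter_image] at h

theorem closed_countable [T1Space X] (hP : IsPSp X) {C : Set X} (hC : C.Countable) : IsClosed C := by
  have h : IsOpen (⋂ c ∈ C, ({c} : Set X)ᶜ) := open_iInter hP hC fun c _ => isOpen_compl_singleton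
  have e : (⋂ c ∈ C, ({c} : Set X)ᶜ) = Cᶜ := by
    ext y
    simp only [mem_iInter, mem_compl_iff, mem_singleton_iff]
    exact ⟨fun h1 h2 => h1 y h2 rfl, fun h1 c hc h2 => h1 (h2 ▸ hc)⟩
  rw [e] at h
  exact isOpen_compl_iff.1 h

/-- a family of closed neighbourhoods, indexed by a given type, with intersection `{x}` -/
theorem family [T3Space X] {x : X} {κ : Cardinal.{u}} (hx : Psi x κ) {I : Type u} (hI : #I = κ) :
    ∃ G : I → Set X, (∀ i, IsClosed (G i)) ∧ (∀ i, G i ∈ 𝓝 x) ∧ ⋂ i, G i = {x} := by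
  obtain ⟨F, hF, hFo, hFx⟩ := hx
  rw [← hI] at hF
  obtain ⟨e⟩ : Nonempty (F ↪ I) := Cardinal.le_def _ _ |>.1 hF
  have hxU : ∀ U : F, x ∈ (U : Set X) := fun U => by
    have : x ∈ ⋂₀ F := by rw [hFx]; rfl
    exact this U.1 U.2
  have hcl : ∀ U : F, ∃ N : Set X, N ∈ 𝓝 x ∧ IsClosed N ∧ N ⊆ (U : Set X) := fun U =>
    exists_mem_nhds_isClosed_subset ((hFo U.1 U.2).mem_nhds (hxU U))
  choose N hN1 hN2 hN3 using hcl
  classical
  refine ⟨fun i => if h : ∃ U, e U = i then N h.choose else univ, fun i => ?_, fun i => ?_, ?_⟩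
  · by_cases h : ∃ U, e U = i
    · simp only [h, dif_pos]
      exact hN2 _
    · simp only [h, dif_neg, not_false_eq_true]
      exact isClosed_univ
  · by_cases h : ∃ U, e U = i
    · simp only [h, dif_pos]
      exact hN1 _
    · simp only [h, dif_neg, not_false_eq_true]
      exact univ_mem
  · apply Subset.antisymm
    · intro y hy
      rw [← hFx]
      intro U hU
      have h1 := mem_iInter.1 hy (e ⟨U, hU⟩)
      have h : ∃ U', e U' = e ⟨U, hU⟩ := ⟨_, rfl⟩
      simp only [h, dif_pos] at h1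
      have h2 : h.choose = ⟨U, hU⟩ := e.injective h.choose_spec
      rw [h2] at h1
      exact hN3 _ h1
    · rintro _ rfl
      refine mem_iInter.2 fun i => ?_
      by_cases h : ∃ U, e U = i
      · simp only [h, dif_pos]
        exact mem_of_mem_nhds (hN1 _)
      · simp only [h, dif_neg, not_false_eq_true]
        trivial

/-- bounded countable sets -/
theorem bdd {κ : Cardinal.{u}} (hκ : κ.IsRegular) (hκ1 : ℵ₀ < κ) {C : Set κ.ord.ToType}
    (hC : C.Countable) : ∃ i, ∀ j ∈ C, j < i := by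
  by_contra hcon
  push Not at hcon
  have h1 : IsCofinal C := fun a => by
    obtain ⟨j, hj, h⟩ := hcon a
    exact ⟨j, hj, h⟩
  have h2 := Order.cof_le h1
  rw [Ordinal.cof_toType, hκ.cof_ord] at h2
  have h3 : #C ≤ ℵ₀ := Cardinal.mk_le_aleph0_iff.2 hC
  exact absurd (h2.trans h3) (not_le.2 hκ1)

/-- closed Lindelöf sets and families of regular length -/
theorem cof_lemma [LindelofSpace X] {κ : Cardinal.{u}} (hκ : κ.IsRegular) (hκ1 : ℵ₀ < κ)
    {G : κ.ord.ToType → Set X} (hG : ∀ i, IsClosed (G i)) {K : Set X} (hK : IsClosed K)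
    (h : K ∩ ⋂ i, G i = ∅) : ∃ i, ∀ z ∈ K, ∃ j < i, z ∉ G j := by
  have hL : IsLindelof K := hK.isLindelof
  obtain ⟨C, hC, hC'⟩ := hL.elim_countable_subcover (fun i => (G i)ᶜ)
    (fun i => (hG i).isOpen_compl) (by
      intro z hz
      by_contra hcon
      have h1 : z ∈ K ∩ ⋂ i, G i := ⟨hz, mem_iInter.2 fun i => by
        by_contra h2
        exact hcon (mem_iUnion.2 ⟨i, h2⟩)⟩
      rw [h] at h1
      exact h1)
  obtain ⟨i, hi⟩ := bdd hκ hκ1 hC
  refine ⟨i, fun z hz => ?_⟩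
  obtain ⟨j, hj, hzj⟩ := mem_iUnion₂.1 (hC' hz)
  exact ⟨j, hi j hj, hzj⟩

/-- **Points of pseudocharacter at most `ℵ₁`.** -/
theorem small [T3Space X] [LindelofSpace X] (hP : IsPSp X) {x : X} (hx : Psi x (aleph 1))
    {A : Set X} (hA : x ∈ closure A) : ∃ D ⊆ A, DiscreteTopology D ∧ x ∈ closure D := by
  by_cases hxA : x ∈ A
  · refine ⟨{x}, singleton_subset_iff.2 hxA, inferInstance, subset_closure rfl⟩
  have hreg : (aleph 1 : Cardinal.{u}).IsRegular := isRegular_aleph_one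
  have hκ1 : ℵ₀ < (aleph 1 : Cardinal.{u}) := by
    rw [← aleph_zero]
    exact aleph_lt_aleph.2 zero_lt_one
  obtain ⟨G, hGc, hGn, hGx⟩ := family hx (Cardinal.mk_ord_toType (aleph 1))
  -- the local base
  set W : (aleph 1 : Cardinal.{u}).ord.ToType → Set X := fun i => ⋂ j ∈ Iio i, interior (G j)
    with hW
  have hcount : ∀ i : (aleph 1 : Cardinal.{u}).ord.ToType, (Iio i).Countable := by
    intro i
    refine (Cardinal.countable_iff_lt_aleph_one _).2 ?_
    have h := Cardinal.mk_Iio_ord_toType i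
    exact h
  have hWo : ∀ i, IsOpen (W i) := fun i => open_iInter hP (hcount i) fun _ _ => isOpen_interior
  have hWx : ∀ i, x ∈ W i := fun i =>
    mem_iInter₂.2 fun j _ => mem_interior_iff_mem_nhds.2 (hGn j)
  have hWb : ∀ V : Set X, IsOpen V → x ∈ V → ∃ i, ∀ j, i ≤ j → W j ⊆ V := by
    intro V hV hxV
    obtain ⟨i, hi⟩ := cof_lemma hreg hκ1 hGc hV.isClosed_compl (by
      rw [hGx]
      ext z
      simp only [mem_inter_iff, mem_compl_iff, mem_singleton_iff, mem_empty_iff_false, iff_false]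
      rintro ⟨h1, rfl⟩
      exact h1 hxV)
    refine ⟨i, fun j hij z hz => ?_⟩
    by_contra hcon
    obtain ⟨l, hl, hzl⟩ := hi z hcon
    exact hzl (interior_subset (mem_iInter₂.1 hz l (lt_of_lt_of_le hl hij)))
  have hne : ∀ i, ∃ a, a ∈ W i ∩ A := fun i => mem_closure_iff.1 hA _ (hWo i) (hWx i)
  choose a ha using hne
  refine ⟨range a, ?_, ?_, ?_⟩
  · rintro _ ⟨i, rfl⟩
    exact (ha i).2
  · rw [discreteTopology_subtype_iff']
    rintro _ ⟨i, rfl⟩
    have hne : x ≠ a i := fun h => hxA (h ▸ (ha i).2)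
    obtain ⟨V, O, hV, hO, hxV, haO, hdis⟩ := t2_separation hne
    obtain ⟨k, hk⟩ := hWb V hV hxV
    have hcl : IsClosed (a '' (Iio k) \ {a i}) :=
      closed_countable hP (((hcount k).image a).mono sdiff_subset)
    refine ⟨O ∩ (a '' (Iio k) \ {a i})ᶜ, hO.inter hcl.isOpen_compl, ?_⟩
    ext z
    simp only [mem_inter_iff, mem_singleton_iff]
    constructor
    · rintro ⟨⟨h1, h2⟩, ⟨j, rfl⟩⟩
      by_contra h3
      rcases lt_or_ge j k with hj | hj
      · exact h2 ⟨⟨j, hj, rfl⟩, h3⟩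
      · exact disjoint_left.1 hdis (hk j hj (ha j).1) h1
    · rintro rfl
      exact ⟨⟨haO, fun h => h.2 rfl⟩, ⟨i, rfl⟩⟩
  · rw [mem_closure_iff]
    intro V hV hxV
    obtain ⟨k, hk⟩ := hWb V hV hxV
    exact ⟨a k, hk k le_rfl (ha k).1, ⟨k, rfl⟩⟩

end Pool.Agent.H638.LP
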