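import Mathlib
import Pool.Agent.H638.LP.Basic

/-! # Regular Lindelöf P-spaces: recursion and free sequences -/

set_option autoImplicit false

open Set Topology Filter Cardinal

universe u

namespace Pool.Agent.H638.LP

theorem exists_rec {I X : Type u} [LinearOrder I] [WellFoundedLT I] (x : X)
    (P : I → (I → X) → Set X)
    (hP : ∀ i g g', (∀ j < i, g j = g' j) → P i g = P i g') :
    ∃ y : I → X, ∀ i, (P i y).Nonempty → y i ∈ P i y := by
  classical
  let F : (i : I) → ((j : I) → j < i → X) → X := fun i f =>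
    if h : (P i (fun l => if h : l < i then f l h else x)).Nonempty then h.some else x
  let y : I → X := (wellFounded_lt (α := I)).fix F
  refine ⟨y, fun i hi => ?_⟩
  have e : y i = F i (fun j _ => y j) := WellFounded.fix_eq _ F i
  have e2 : P i (fun l => if h : l < i then y l else x) = P i y := by
    refine hP i _ _ fun j hj => ?_
    simp [hj]
  have hi' : (P i (fun l => if h : l < i then y l else x)).Nonempty := by rw [e2]; exact hi
  have e3 : F i (fun j _ => y j) = hi'.some := dif_pos hi'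
  rw [e, e3]
  exact e2.subset hi'.some_mem

variable {X : Type u} [TopologicalSpace X]

theorem nbhd_choice [T3Space X] (x : X) (E : Set X) :
    ∃ N : Set X, IsClosed N ∧ N ∈ 𝓝 x ∧ (x ∉ closure E → Disjoint N (closure E)) := by
  by_cases h : x ∈ closure E
  · exact ⟨univ, isClosed_univ, univ_mem, fun h' => absurd h h'⟩
  · obtain ⟨N, h1, h2, h3⟩ := exists_mem_nhds_isClosed_subset
      ((isClosed_closure (s := E)).isOpen_compl.mem_nhds h)
    exact ⟨N, h2, h1, fun _ => disjoint_left.2 fun z hz => h3 hz⟩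

theorem seq [T3Space X] {μ : Cardinal.{u}} (hμ : ℵ₀ < μ) {x : X} {A : Set X} (hxA : x ∉ A)
    (H1 : ∀ H : Set (Set X), #H < μ → (∀ h ∈ H, IsClosed h ∧ h ∈ 𝓝 x) → (A ∩ ⋂₀ H).Nonempty)
    (H2 : ∀ E ⊆ A, DiscreteTopology E → #E < μ → closure E ⊆ A)
    (G : μ.ord.ToType → Set X) (hG : ∀ i, IsClosed (G i) ∧ G i ∈ 𝓝 x) :
    ∃ y : μ.ord.ToType → X, (∀ i, y i ∈ A) ∧ (∀ i, ∀ j < i, y i ∈ G j) ∧
      DiscreteTopology (range y) ∧
      ∀ j, Disjoint (closure (y '' Iic j)) (closure (y '' Ioi j)) := by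
  classical
  choose N hNc hNn hNd using nbhd_choice (X := X) x
  let P : μ.ord.ToType → (μ.ord.ToType → X) → Set X := fun i g =>
    A ∩ ⋂₀ (insert (N (g '' Iio i)) ((fun j => G j ∩ N (g '' Iic j)) '' Iio i))
  have hP : ∀ i g g', (∀ j < i, g j = g' j) → P i g = P i g' := by
    intro i g g' h
    have e1 : g '' Iio i = g' '' Iio i := image_congr fun j hj => h j hj
    have e2 : (fun j => G j ∩ N (g '' Iic j)) '' Iio i = (fun j => G j ∩ N (g' '' Iic j)) '' Iio i := by
      refine image_congr fun j hj => ?_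
      have e3 : g '' Iic j = g' '' Iic j :=
        image_congr fun l hl => h l (lt_of_le_of_lt hl hj)
      simp only [e3]
    simp only [P, e1, e2]
  obtain ⟨y, hy⟩ := exists_rec x P hP
  have hsm : ∀ i : μ.ord.ToType, #(Iio i) < μ := fun i => Cardinal.mk_Iio_ord_toType i
  have hyP : ∀ i, y i ∈ P i y := by
    intro i
    refine hy i (H1 _ ?_ ?_)
    · refine lt_of_le_of_lt (mk_insert_le) ?_
      refine add_lt_of_lt hμ.le (lt_of_le_of_lt mk_image_le (hsm i)) (lt_of_lt_of_le one_lt_aleph0 hμ.le)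
    · intro h hh
      rcases mem_insert_iff.1 hh with rfl | ⟨j, _, rfl⟩
      · exact ⟨hNc _, hNn _⟩
      · exact ⟨(hG j).1.inter (hNc _), inter_mem (hG j).2 (hNn _)⟩
  have hyA : ∀ i, y i ∈ A := fun i => (hyP i).1
  have hyN : ∀ i, y i ∈ N (y '' Iio i) := fun i => (hyP i).2 _ (mem_insert _ _)
  have hyG : ∀ i, ∀ j < i, y i ∈ G j ∩ N (y '' Iic j) := fun i j hj =>
    (hyP i).2 _ (mem_insert_of_mem _ ⟨j, hj, rfl⟩)
  have hdisc : ∀ S : Set μ.ord.ToType,
      (∀ l ∈ S, x ∉ closure (y '' Iio l) ∧ x ∉ closure (y '' Iic l)) →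
      DiscreteTopology (y '' S) := by
    intro S hS
    rw [discreteTopology_subtype_iff']
    rintro _ ⟨l, hl, rfl⟩
    refine ⟨(N (y '' Iic l))ᶜ ∩ (closure (y '' Iio l))ᶜ,
      (hNc _).isOpen_compl.inter isClosed_closure.isOpen_compl, ?_⟩
    ext z
    simp only [mem_inter_iff, mem_compl_iff, mem_singleton_iff]
    constructor
    · rintro ⟨⟨h1, h2⟩, k, hk, rfl⟩
      rcases lt_trichotomy k l with h | h | h
      · exact absurd (subset_closure (mem_image_of_mem y (show k ∈ Iio l from h))) h2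
      · rw [h]
      · exact absurd (hyG k l h).2 h1
    · rintro rfl
      refine ⟨⟨fun h => ?_, fun h => ?_⟩, l, hl, rfl⟩
      · exact disjoint_left.1 (hNd _ (hS l hl).2) h 
          (subset_closure (mem_image_of_mem y (mem_Iic.2 le_rfl)))
      · exact disjoint_left.1 (hNd _ (hS l hl).1) (hyN l) h
  have hx : ∀ i, x ∉ closure (y '' Iio i) ∧ x ∉ closure (y '' Iic i) := by
    intro i
    induction i using WellFoundedLT.induction with
    | ind i ih =>
      have h1 : DiscreteTopology (y '' Iio i) := hdisc _ fun l hl => ih l hl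
      have h2 : closure (y '' Iio i) ⊆ A := H2 _ (by
        rintro _ ⟨j, _, rfl⟩
        exact hyA j) h1 (lt_of_le_of_lt mk_image_le (hsm i))
      have h3 : x ∉ closure (y '' Iio i) := fun h => hxA (h2 h)
      refine ⟨h3, fun h => ?_⟩
      have h4 : y '' Iic i = insert (y i) (y '' Iio i) := by
        rw [← Iio_insert, image_insert_eq]
      rw [h4, ← singleton_union, closure_union, closure_singleton] at h
      rcases h with h | h
      · exact hxA (by rw [mem_singleton_iff.1 h]; exact hyA i)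
      · exact h3 h
  refine ⟨y, hyA, fun i j hj => (hyG i j hj).1, ?_, fun j => ?_⟩
  · rw [← image_univ]
    exact hdisc _ fun l _ => hx l
  · have h1 : closure (y '' Ioi j) ⊆ N (y '' Iic j) := by
      refine closure_minimal ?_ (hNc _)
      rintro _ ⟨k, hk, rfl⟩
      exact (hyG k j hk).2
    exact (hNd _ (hx j).2).symm.mono_right h1

end Pool.Agent.H638.LP
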