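import Mathlib
import Pool.Agent.H638.LP.Basic
import Pool.Agent.H638.LP.Free

/-! # Regular Lindelöf P-spaces of tightness at most `ℵ₁` -/

set_option autoImplicit false

open Set Topology Filter Cardinal

universe u

namespace Pool.Agent.H638.LP

theorem bddc {κ : Cardinal.{u}} (hκ : κ.IsRegular) {C : Set κ.ord.ToType}
    (hC : #C < κ) : ∃ i, ∀ j ∈ C, j < i := by
  by_contra hcon
  push Not at hcon
  have h1 : IsCofinal C := fun a => by
    obtain ⟨j, hj, h⟩ := hcon a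
    exact ⟨j, hj, h⟩
  have h2 := Order.cof_le h1
  rw [Ordinal.cof_toType, hκ.cof_ord] at h2
  exact absurd h2 (not_le.2 hC)

variable {X : Type u} [TopologicalSpace X]

/-- points reached from `A` by discrete sets of size at most `ℵ₁` -/
def Reach (A : Set X) : Set X :=
  {z | ∃ D ⊆ A, DiscreteTopology D ∧ #D ≤ aleph 1 ∧ z ∈ closure D}

theorem subset_reach (A : Set X) : A ⊆ Reach A := fun a ha =>
  ⟨{a}, singleton_subset_iff.2 ha, inferInstance, by
    rw [mk_singleton]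
    exact (one_le_aleph0.trans (aleph0_le_aleph 1)), subset_closure rfl⟩

theorem expand [T3Space X] (hP : IsPSp X) {A E : Set X} (hE : E ⊆ Reach A)
    (hd : DiscreteTopology E) (hc : #E ≤ aleph 1) : closure E ⊆ Reach A := by
  have hc' : #E ≤ #((aleph 1 : Cardinal.{u}).ord.ToType) := by
    rw [Cardinal.mk_ord_toType]; exact hc
  obtain ⟨e⟩ : Nonempty (E ↪ (aleph 1 : Cardinal.{u}).ord.ToType) := Cardinal.le_def _ _ |>.1 hc'
  have hC : ∀ p : E, ∃ C : Set X, C ∈ 𝓝 (p : X) ∧ IsClosed C ∧ ∀ q ∈ E, q ∈ C → q = p := by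
    intro p
    obtain ⟨U, hU, hUE⟩ := discreteTopology_subtype_iff'.1 hd p.1 p.2
    have hpU : (p : X) ∈ U := by
      have : (p : X) ∈ U ∩ E := by rw [hUE]; rfl
      exact this.1
    obtain ⟨C, h1, h2, h3⟩ := exists_mem_nhds_isClosed_subset (hU.mem_nhds hpU)
    refine ⟨C, h1, h2, fun q hq hqC => ?_⟩
    have : q ∈ U ∩ E := ⟨h3 hqC, hq⟩
    rw [hUE] at this
    exact this
  choose C hC1 hC2 hC3 using hC
  let O : E → Set X := fun p => interior (C p) ∩ ⋂ q ∈ {q : E | e q < e p}, (C q)ᶜ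
  have hcount : ∀ p : E, {q : E | e q < e p}.Countable := by
    intro p
    have h1 : (Iio (e p)).Countable := by
      refine (Cardinal.countable_iff_lt_aleph_one _).2 ?_
      exact Cardinal.mk_Iio_ord_toType (e p)
    exact h1.preimage e.injective
  have hO : ∀ p, IsOpen (O p) := fun p =>
    isOpen_interior.inter (open_iInter hP (hcount p) fun q _ => (hC2 q).isOpen_compl)
  have hpO : ∀ p : E, (p : X) ∈ O p := by
    intro p
    refine ⟨mem_interior_iff_mem_nhds.2 (hC1 p), mem_iInter₂.2 fun q hq h => ?_⟩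
    have h1 : (p : X) = q := hC3 q p.1 p.2 h
    have h2 : p = q := Subtype.ext h1
    rw [h2] at hq
    exact lt_irrefl (e q) (show e q < e q from hq)
  have hdis : ∀ p q : E, e p < e q → ∀ z, z ∈ O p → z ∉ O q := by
    intro p q h z hz hz'
    exact mem_iInter₂.1 hz'.2 p h (interior_subset hz.1)
  have hdis' : ∀ p q : E, ∀ z, z ∈ O p → z ∈ O q → p = q := by
    intro p q z hz hz'
    rcases lt_trichotomy (e p) (e q) with h | h | h
    · exact absurd hz' (hdis p q h z hz)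
    · exact e.injective h
    · exact absurd hz (hdis q p h z hz')
  have hE' : ∀ p : E, ∃ D ⊆ A, DiscreteTopology D ∧ #D ≤ aleph 1 ∧ (p : X) ∈ closure D :=
    fun p => hE p.2
  choose D hDA hDd hDc hDz using hE'
  intro z hz
  refine ⟨⋃ p : E, (D p ∩ O p), ?_, ?_, ?_, ?_⟩
  · exact iUnion_subset fun p => inter_subset_left.trans (hDA p)
  · rw [discreteTopology_subtype_iff']
    intro d hd'
    obtain ⟨p, hdp, hdO⟩ := mem_iUnion.1 hd'
    obtain ⟨V, hV, hVD⟩ := discreteTopology_subtype_iff'.1 (hDd p) d hdp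
    refine ⟨V ∩ O p, hV.inter (hO p), ?_⟩
    ext w
    simp only [mem_inter_iff, mem_singleton_iff]
    constructor
    · rintro ⟨⟨h1, h2⟩, h3⟩
      obtain ⟨q, hwq, hwO⟩ := mem_iUnion.1 h3
      have h4 : q = p := hdis' q p w hwO h2
      rw [h4] at hwq
      have h5 : w ∈ V ∩ D p := ⟨h1, hwq⟩
      rw [hVD] at h5
      exact h5
    · rintro rfl
      have h6 : w ∈ V ∩ D p := by rw [hVD]; rfl
      exact ⟨⟨h6.1, hdO⟩, hd'⟩
  · refine (mk_iUnion_le _).trans ?_
    have h1 : (⨆ p : E, #(D p ∩ O p : Set X)) ≤ aleph 1 :=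
      ciSup_le' fun p => (mk_le_mk_of_subset inter_subset_left).trans (hDc p)
    calc #E * (⨆ p : E, #(D p ∩ O p : Set X)) ≤ aleph 1 * aleph 1 := mul_le_mul' hc h1
      _ = aleph 1 := mul_eq_self (aleph0_le_aleph 1)
  · have h1 : E ⊆ closure (⋃ p : E, (D p ∩ O p)) := by
      intro p hp
      rw [mem_closure_iff]
      intro V hV hpV
      obtain ⟨w, hw1, hw2⟩ := mem_closure_iff.1 (hDz ⟨p, hp⟩) (V ∩ O ⟨p, hp⟩)
        (hV.inter (hO _)) ⟨hpV, hpO ⟨p, hp⟩⟩
      exact ⟨w, hw1.1, mem_iUnion.2 ⟨⟨p, hp⟩, hw2, hw1.2⟩⟩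
    exact closure_minimal h1 isClosed_closure hz

/-- the reached points meet every intersection of `ℵ₁` many closed neighbourhoods -/
theorem dense [T3Space X] [LindelofSpace X] (hP : IsPSp X)
    {A : Set X} {x : X} (hx : x ∈ closure A) (hcon : x ∉ Reach A) :
    ∀ H : Set (Set X), #H < Order.succ (aleph 1) → (∀ h ∈ H, IsClosed h ∧ h ∈ 𝓝 x) →
      (Reach A ∩ ⋂₀ H).Nonempty := by
  have hxR : x ∈ closure (Reach A) := closure_mono (subset_reach A) hx
  have hκ1 : ℵ₀ < (aleph 1 : Cardinal.{u}) := by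
    rw [← aleph_zero]
    exact aleph_lt_aleph.2 zero_lt_one
  have hreg1 : (aleph 1 : Cardinal.{u}).IsRegular := isRegular_aleph_one
  -- countably many closed neighbourhoods
  have H1 : ∀ H : Set (Set X), #H < aleph 1 → (∀ h ∈ H, IsClosed h ∧ h ∈ 𝓝 x) →
      (Reach A ∩ ⋂₀ H).Nonempty := by
    intro H hH hHn
    have hHc : H.Countable := (Cardinal.countable_iff_lt_aleph_one _).2 hH
    have h1 : IsOpen (⋂₀ (interior '' H)) := hP _ (hHc.image _) (by
      rintro _ ⟨h, _, rfl⟩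
      exact isOpen_interior)
    obtain ⟨r, hr1, hr2⟩ := mem_closure_iff.1 hxR _ h1 (by
      rintro _ ⟨h, hh, rfl⟩
      exact mem_interior_iff_mem_nhds.2 (hHn h hh).2)
    exact ⟨r, hr2, fun h hh => interior_subset (hr1 _ ⟨h, hh, rfl⟩)⟩
  -- `ℵ₁` many closed neighbourhoods
  have H2 : ∀ G : (aleph 1 : Cardinal.{u}).ord.ToType → Set X,
      (∀ i, IsClosed (G i) ∧ G i ∈ 𝓝 x) → (Reach A ∩ ⋂ i, G i).Nonempty := by
    intro G hG
    by_contra hne
    rw [not_nonempty_iff_eq_empty] at hne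
    obtain ⟨y, hy1, hy2, hy3, -⟩ := seq hκ1 hcon H1
      (fun E hE hd hc => expand hP hE hd hc.le) G hG
    have hK : closure (range y) ⊆ Reach A := expand hP (by
      rintro _ ⟨i, rfl⟩
      exact hy1 i) hy3 (mk_range_le.trans (Cardinal.mk_ord_toType _).le)
    have hK' : closure (range y) ∩ ⋂ i, G i = ∅ :=
      subset_empty_iff.1 (hne ▸ inter_subset_inter_left _ hK)
    obtain ⟨i, hi⟩ := cof_lemma hreg1 hκ1 (fun i => (hG i).1) isClosed_closure hK'
    obtain ⟨j, hj, h⟩ := hi (y i) (subset_closure ⟨i, rfl⟩)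
    exact h (hy2 i j hj)
  intro H hH hHn
  have hH1 : #H ≤ #((aleph 1 : Cardinal.{u}).ord.ToType) := by
    rw [Cardinal.mk_ord_toType]; exact Order.lt_succ_iff.1 hH
  rcases H.eq_empty_or_nonempty with rfl | hHne
  · rw [sInter_empty, inter_univ]
    exact closure_nonempty_iff.1 ⟨x, hxR⟩
  · obtain ⟨e⟩ : Nonempty (H ↪ (aleph 1 : Cardinal.{u}).ord.ToType) :=
      Cardinal.le_def _ _ |>.1 hH1
    haveI : Nonempty H := hHne.to_subtype
    obtain ⟨r, hr1, hr2⟩ := H2 (fun k => (Function.invFun e k : H).1)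
      (fun k => hHn _ (Function.invFun e k : H).2)
    refine ⟨r, hr1, fun h hh => ?_⟩
    have h1 := mem_iInter.1 hr2 (e ⟨h, hh⟩)
    rw [Function.leftInverse_invFun e.injective] at h1
    exact h1

theorem dense' [T3Space X] [LindelofSpace X] (hP : IsPSp X)
    {A : Set X} {x : X} (hx : x ∈ closure A) (H : Set (Set X)) (hH : #H ≤ aleph 1)
    (hHo : ∀ h ∈ H, IsOpen h ∧ x ∈ h) :
    ∃ D ⊆ A, DiscreteTopology D ∧ #D ≤ aleph 1 ∧ (closure D ∩ ⋂₀ H).Nonempty := by
  by_cases hcon : x ∈ Reach A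
  · obtain ⟨D, h1, h2, h3, h4⟩ := hcon
    exact ⟨D, h1, h2, h3, x, h4, fun h hh => (hHo h hh).2⟩
  · have hN : ∀ h : H, ∃ N : Set X, N ∈ 𝓝 x ∧ IsClosed N ∧ N ⊆ (h : Set X) := fun h =>
      exists_mem_nhds_isClosed_subset ((hHo h.1 h.2).1.mem_nhds (hHo h.1 h.2).2)
    choose N hN1 hN2 hN3 using hN
    obtain ⟨r, ⟨D, h1, h2, h3, h4⟩, hr⟩ := dense hP hx hcon (range N)
      (Order.lt_succ_iff.2 (mk_range_le.trans hH)) (by
        rintro _ ⟨h, rfl⟩
        exact ⟨hN2 h, hN1 h⟩)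
    exact ⟨D, h1, h2, h3, r, h4, fun h hh => hN3 ⟨h, hh⟩ (hr _ ⟨⟨h, hh⟩, rfl⟩)⟩

/-- **Regular Lindelöf P-spaces of tightness at most `ℵ₁` are discretely generated.** -/
theorem main [T3Space X] [LindelofSpace X] (hP : IsPSp X)
    (ht : ∀ (B : Set X) (z : X), z ∈ closure B → ∃ C ⊆ B, #C ≤ aleph 1 ∧ z ∈ closure C)
    {A : Set X} {x : X} (hx : x ∈ closure A) : x ∈ Reach A := by
  by_contra hcon
  have hκ1 : ℵ₀ < (aleph 1 : Cardinal.{u}) := by
    rw [← aleph_zero]
    exact aleph_lt_aleph.2 zero_lt_one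
  have hreg2 : (Order.succ (aleph 1 : Cardinal.{u})).IsRegular := isRegular_succ (aleph0_le_aleph 1)
  have hκ2 : ℵ₀ < Order.succ (aleph 1 : Cardinal.{u}) := hκ1.trans (Order.lt_succ _)
  have H3 := dense hP hx hcon
  obtain ⟨y, hy1, -, hy3, hy4⟩ := seq hκ2 hcon H3
    (fun E hE hd hc => expand hP hE hd (Order.lt_succ_iff.1 hc)) (fun _ => univ)
    (fun _ => ⟨isClosed_univ, univ_mem⟩)
  have hz : ∃ z, ∀ i, z ∈ closure (y '' Ioi i) := by
    by_contra hno
    push Not at hno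
    obtain ⟨i, hi⟩ := cof_lemma (X := X) hreg2 hκ2 (G := fun i => closure (y '' Ioi i))
      (fun i => isClosed_closure) isClosed_univ (by
        rw [univ_inter, eq_empty_iff_forall_notMem]
        intro z hz
        obtain ⟨i, hi⟩ := hno z
        exact hi (mem_iInter.1 hz i))
    obtain ⟨j, hj, h⟩ := hi (y i) (mem_univ _)
    exact h (subset_closure (mem_image_of_mem y hj))
  obtain ⟨z, hz⟩ := hz
  have hzr : z ∈ closure (range y) := by
    obtain ⟨i, -⟩ := bddc hreg2 (C := ∅) (by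
      rw [mk_emptyCollection]; exact (aleph0_pos.trans hκ2))
    exact closure_mono (image_subset_range _ _) (hz i)
  obtain ⟨B, hB, hBc, hzB⟩ := ht _ z hzr
  choose f hf using fun b : B => hB b.2
  obtain ⟨j, hj⟩ := bddc hreg2 (C := range f) (by
    rw [Order.lt_succ_iff]
    exact mk_range_le.trans hBc)
  have hBj : B ⊆ y '' Iic j := fun b hb =>
    ⟨f ⟨b, hb⟩, (hj _ ⟨⟨b, hb⟩, rfl⟩).le, hf ⟨b, hb⟩⟩
  exact disjoint_left.1 (hy4 j) (closure_mono hBj hzB) (hz j)

end Pool.Agent.H638.LP
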